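import Pool.Agent.U587.DV.Mon

set_option autoImplicit false
set_option linter.unusedSectionVars false

/-! The two dimensional nonabelian Lie algebra and its relatives over commutative algebras. -/

universe u v

namespace Pool.Agent.U587.DV

open Polynomial

/-- `C × C` with the bracket `[(p, q), (p', q')] = (0, c (p q' - p' q))` -/
def Aff (C : Type u) [CommRing C] (_c : C) : Type u := C × C

/-- the pair `(p, q)` -/
def am {C : Type u} [CommRing C] (c : C) (p q : C) : Aff C c := (p, q)

@[simp] theorem am_fst {C : Type u} [CommRing C] (c : C) (p q : C) : (am c p q).1 = p := rfl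
@[simp] theorem am_snd {C : Type u} [CommRing C] (c : C) (p q : C) : (am c p q).2 = q := rfl

theorem aff_ext {C : Type u} [CommRing C] {c : C} {x y : Aff C c} (h1 : x.1 = y.1)
    (h2 : x.2 = y.2) : x = y := Prod.ext h1 h2

section
variable {F : Type u} [Field F] {C : Type u} [CommRing C] [Algebra F C] (c : C)

noncomputable instance : AddCommGroup (Aff C c) := inferInstanceAs (AddCommGroup (C × C))
noncomputable instance : Module F (Aff C c) := inferInstanceAs (Module F (C × C))

noncomputable instance : Bracket (Aff C c) (Aff C c) :=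
  ⟨fun x y => am c 0 (c * (x.1 * y.2 - y.1 * x.2))⟩

theorem aff_lie (x y : Aff C c) : ⁅x, y⁆ = am c 0 (c * (x.1 * y.2 - y.1 * x.2)) := rfl

@[simp] theorem aff_lie_fst (x y : Aff C c) : (⁅x, y⁆).1 = 0 := rfl
@[simp] theorem aff_lie_snd (x y : Aff C c) : (⁅x, y⁆).2 = c * (x.1 * y.2 - y.1 * x.2) := rfl
@[simp] theorem aff_add_fst (x y : Aff C c) : (x + y).1 = x.1 + y.1 := rfl
@[simp] theorem aff_add_snd (x y : Aff C c) : (x + y).2 = x.2 + y.2 := rfl
@[simp] theorem aff_smul_fst (t : F) (y : Aff C c) : (t • y).1 = t • y.1 := rfl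
@[simp] theorem aff_smul_snd (t : F) (y : Aff C c) : (t • y).2 = t • y.2 := rfl
@[simp] theorem aff_zero_fst : (0 : Aff C c).1 = 0 := rfl
@[simp] theorem aff_zero_snd : (0 : Aff C c).2 = 0 := rfl

noncomputable instance : LieRing (Aff C c) where
  add_lie x y z := by
    apply aff_ext
    · simp
    · simp only [aff_lie_snd, aff_add_snd, aff_add_fst]; ring
  lie_add x y z := by
    apply aff_ext
    · simp
    · simp only [aff_lie_snd, aff_add_snd, aff_add_fst]; ring
  lie_self x := by
    apply aff_ext
    · simp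
    · simp only [aff_lie_snd, aff_zero_snd]; ring
  leibniz_lie x y z := by
    apply aff_ext
    · simp
    · simp only [aff_lie_snd, aff_add_snd, aff_lie_fst]; ring

noncomputable instance : LieAlgebra F (Aff C c) where
  lie_smul t x y := by
    apply aff_ext
    · simp
    · simp only [aff_lie_snd, aff_smul_snd, aff_smul_fst, Algebra.smul_def]; ring

/-- functoriality -/
noncomputable def affMap {C' : Type u} [CommRing C'] [Algebra F C'] (h : C →ₐ[F] C') {c : C} {c' : C'}
    (hc : h c = c') : Aff C c →ₗ⁅F⁆ Aff C' c' where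
  toFun x := am c' (h x.1) (h x.2)
  map_add' x y := by
    apply aff_ext <;> simp
  map_smul' t x := by
    apply aff_ext <;> simp
  map_lie' {x y} := by
    apply aff_ext
    · simp
    · simp [hc]

@[simp] theorem affMap_fst {C' : Type u} [CommRing C'] [Algebra F C'] (h : C →ₐ[F] C') {c : C}
    {c' : C'} (hc : h c = c') (x : Aff C c) : (affMap h hc x).1 = h x.1 := rfl
@[simp] theorem affMap_snd {C' : Type u} [CommRing C'] [Algebra F C'] (h : C →ₐ[F] C') {c : C}
    {c' : C'} (hc : h c = c') (x : Aff C c) : (affMap h hc x).2 = h x.2 := rfl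

/-- rescaling -/
noncomputable def affScale (t : F) : Aff F t →ₗ⁅F⁆ Aff F (1 : F) where
  toFun x := am 1 (t * x.1) (t * x.2)
  map_add' x y := by
    apply aff_ext
    · simp only [aff_add_fst, am_fst]; ring
    · simp only [aff_add_snd, am_snd]; ring
  map_smul' s x := by
    apply aff_ext
    · simp only [aff_smul_fst, smul_eq_mul, RingHom.id_apply, am_fst]; ring
    · simp only [aff_smul_snd, smul_eq_mul, RingHom.id_apply, am_snd]; ring
  map_lie' {x y} := by
    apply aff_ext
    · simp
    · simp only [aff_lie_snd, am_fst, am_snd]; ring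

theorem aff_metab (x y z w : Aff C c) : ⁅⁅x, y⁆, ⁅z, w⁆⁆ = 0 := by
  apply aff_ext
  · rw [aff_lie_fst, aff_zero_fst]
  · rw [aff_lie_snd, aff_lie_fst, aff_lie_fst, aff_zero_snd]; ring

end

section
variable (F : Type u) [Field F]

/-- the two dimensional nonabelian Lie algebra -/
noncomputable def E1 : LieAlg F := ⟨Aff F (1 : F)⟩

/-- the identities of the two dimensional nonabelian Lie algebra -/
def Id1 : Set (FreeLieAlgebra F ℕ) := {f | IsIdentity F f (E1 F)}

/-- the truncated algebra -/
noncomputable def Et (d : ℕ) : LieAlg F :=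
  ⟨Aff (F[X] ⧸ Ideal.span {(X : F[X]) ^ d}) (Ideal.Quotient.mk _ (X : F[X]))⟩

variable {F}

theorem id_scale {f : FreeLieAlgebra F ℕ} (hf : f ∈ Id1 F) {t : F} (ht : t ≠ 0)
    (φ : ℕ → Aff F t) : FreeLieAlgebra.lift F φ f = 0 := by
  have h : FreeLieAlgebra.lift F (fun i => affScale t (φ i)) f = 0 := hf _
  rw [← lift_comp] at h
  have h1 : t * (FreeLieAlgebra.lift F φ f).1 = 0 := congrArg Prod.fst h
  have h2 : t * (FreeLieAlgebra.lift F φ f).2 = 0 := congrArg Prod.snd h
  apply aff_ext
  · exact (mul_eq_zero.1 h1).resolve_left ht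
  · exact (mul_eq_zero.1 h2).resolve_left ht

theorem poly_zero [Infinite F] {p : F[X]} (h : ∀ t : F, t ≠ 0 → p.eval t = 0) : p = 0 := by
  have : X * p = 0 := by
    apply Polynomial.funext
    intro t
    by_cases ht : t = 0
    · simp [ht]
    · simp [h t ht]
  exact (mul_eq_zero.1 this).resolve_left X_ne_zero

theorem id_poly [Infinite F] {f : FreeLieAlgebra F ℕ} (hf : f ∈ Id1 F)
    (φ : ℕ → Aff F[X] (X : F[X])) : FreeLieAlgebra.lift F φ f = 0 := by
  have h : ∀ t : F, t ≠ 0 → affMap (c := (X : F[X])) (c' := t) (Polynomial.aeval t : F[X] →ₐ[F] F)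
      (by simp) (FreeLieAlgebra.lift F φ f) = 0 := by
    intro t ht
    rw [lift_comp]
    exact id_scale hf ht _
  apply aff_ext
  · apply poly_zero
    intro t ht
    have := congrArg Prod.fst (h t ht)
    change (Polynomial.aeval t) (FreeLieAlgebra.lift F φ f).1 = 0 at this
    rwa [Polynomial.coe_aeval_eq_eval] at this
  · apply poly_zero
    intro t ht
    have := congrArg Prod.snd (h t ht)
    change (Polynomial.aeval t) (FreeLieAlgebra.lift F φ f).2 = 0 at this
    rwa [Polynomial.coe_aeval_eq_eval] at this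

theorem id_trunc [Infinite F] (d : ℕ) {f : FreeLieAlgebra F ℕ} (hf : f ∈ Id1 F) :
    IsIdentity F f (Et F d) := by
  intro φ
  have hs : Function.Surjective (Ideal.Quotient.mkₐ F (Ideal.span {(X : F[X]) ^ d})) :=
    Ideal.Quotient.mkₐ_surjective _ _
  choose s hs' using hs
  let ψ : ℕ → Aff F[X] (X : F[X]) := fun i => am _ (s (φ i).1) (s (φ i).2)
  have h := id_poly hf ψ
  have h2 := congrArg (affMap (c := (X : F[X])) (c' := Ideal.Quotient.mk _ (X : F[X]))
    (Ideal.Quotient.mkₐ F (Ideal.span {(X : F[X]) ^ d})) rfl) h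
  rw [lift_comp, map_zero] at h2
  have e : (fun i => (affMap (c := (X : F[X])) (c' := Ideal.Quotient.mk _ (X : F[X]))
    (Ideal.Quotient.mkₐ F (Ideal.span {(X : F[X]) ^ d})) rfl) (ψ i)) = φ := by
    funext i
    apply aff_ext
    · exact hs' _
    · exact hs' _
  rw [e] at h2
  exact h2

/-- nilpotency -/
theorem nest_aff {C : Type u} [CommRing C] [Algebra F C] (c : C) (x : ℕ → Aff C c) (k : ℕ) :
    (nest x (k + 1)).1 = 0 ∧ ∃ r, (nest x (k + 1)).2 = c ^ (k + 1) * r := by
  induction k with
  | zero =>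
    exact ⟨rfl, _, by rw [nest, nest, aff_lie_snd, zero_add, pow_one]⟩
  | succ k ih =>
    obtain ⟨h1, r, h2⟩ := ih
    refine ⟨rfl, (x (k + 2)).1 * r, ?_⟩
    rw [nest, aff_lie_snd, h1, h2]
    ring

theorem nest_zero_of {C : Type u} [CommRing C] [Algebra F C] (c : C) (d : ℕ) (hc : c ^ d = 0)
    (x : ℕ → Aff C c) : nest x d = 0 := by
  rcases d with _ | k
  · have h1 : (1 : C) = 0 := by simpa using hc
    apply aff_ext
    · rw [← mul_one (nest x 0).1, h1, mul_zero]; rfl
    · rw [← mul_one (nest x 0).2, h1, mul_zero]; rfl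
  · obtain ⟨h1, r, h2⟩ := nest_aff (F := F) c x k
    apply aff_ext
    · exact h1
    · rw [h2, hc, zero_mul]; rfl

theorem nest_trunc (d : ℕ) (x : ℕ → (Et F d).carrier) : nest x d = 0 := by
  have hc : (Ideal.Quotient.mk (Ideal.span {(X : F[X]) ^ d}) (X : F[X])) ^ d = 0 := by
    rw [← map_pow, Ideal.Quotient.eq_zero_iff_mem]
    exact Ideal.mem_span_singleton_self _
  exact nest_zero_of (F := F) _ d hc x

/-- values of homogeneous elements at constants -/
theorem eval_const {C : Type u} [CommRing C] [Algebra F C] (c : C) {n : ℕ}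
    {g : FreeLieAlgebra F ℕ} (hg : g ∈ Hom F n) (φ : ℕ → Aff F (1 : F)) :
    (2 ≤ n → (FreeLieAlgebra.lift F φ g).1 = 0) ∧
    (FreeLieAlgebra.lift F (fun i => am c (algebraMap F C (φ i).1) (algebraMap F C (φ i).2))
      g).1 = algebraMap F C (FreeLieAlgebra.lift F φ g).1 ∧
    (FreeLieAlgebra.lift F (fun i => am c (algebraMap F C (φ i).1) (algebraMap F C (φ i).2))
      g).2 = c ^ (n - 1) * algebraMap F C (FreeLieAlgebra.lift F φ g).2 := by
  induction hg using Submodule.span_induction with
  | mem x hx =>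
    have hx' : IsMonomial F n x := hx
    clear hx
    induction hx' with
    | var i =>
      refine ⟨fun h => absurd h (by omega), ?_, ?_⟩
      · rw [FreeLieAlgebra.lift_of_apply, FreeLieAlgebra.lift_of_apply, am_fst]
      · rw [FreeLieAlgebra.lift_of_apply, FreeLieAlgebra.lift_of_apply]; simp
    | @bracket m n a b ha hb h1 h2 =>
      obtain ⟨p1, q1, r1⟩ := h1
      obtain ⟨p2, q2, r2⟩ := h2
      have hm := mono_pos ha
      have hn := mono_pos hb
      refine ⟨fun _ => by rw [LieHom.map_lie]; rfl, ?_, ?_⟩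
      · rw [LieHom.map_lie, LieHom.map_lie, aff_lie_fst, aff_lie_fst, map_zero]
      · rw [LieHom.map_lie, LieHom.map_lie, aff_lie_snd, aff_lie_snd, q1, q2, r1, r2]
        simp only [one_mul, map_sub, map_mul]
        by_cases h1' : m = 1
        · subst h1'
          by_cases h2' : n = 1
          · subst h2'
            simp
          · rw [p2 (by omega)]
            rw [show 1 + n - 1 = (n - 1) + 1 by omega, pow_succ]
            simp
            ring
        · rw [p1 (by omega)]
          by_cases h2' : n = 1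
          · subst h2'
            rw [show m + 1 - 1 = (m - 1) + 1 by omega, pow_succ]
            simp
            ring
          · rw [p2 (by omega)]
            simp
  | zero => exact ⟨fun _ => by rw [map_zero]; rfl, by rw [map_zero, map_zero]; simp,
      by rw [map_zero, map_zero]; simp⟩
  | add y z _ _ hy hz =>
    refine ⟨fun h => ?_, ?_, ?_⟩
    · rw [map_add, aff_add_fst, hy.1 h, hz.1 h, add_zero]
    · rw [map_add, map_add, aff_add_fst, aff_add_fst, hy.2.1, hz.2.1, map_add]
    · rw [map_add, map_add, aff_add_snd, aff_add_snd, hy.2.2, hz.2.2, map_add, mul_add]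
  | smul t y _ hy =>
    refine ⟨fun h => ?_, ?_, ?_⟩
    · rw [map_smul, aff_smul_fst, hy.1 h, smul_zero]
    · rw [map_smul, map_smul, aff_smul_fst, aff_smul_fst, hy.2.1]
      simp [Algebra.smul_def]
    · rw [map_smul, map_smul, aff_smul_snd, aff_smul_snd, hy.2.2]
      simp only [Algebra.smul_def, map_mul, Algebra.algebraMap_self, RingHom.id_apply]
      ring

end

end Pool.Agent.U587.DV
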