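import Mathlib

set_option autoImplicit false

/-!
# Varieties of Lie algebras

Lie algebras over a field `F`, identities in countably many variables, varieties, the join of two
varieties, distributive varieties, and elements of the free Lie algebra of degree at most `d`.
-/

universe u

namespace Pool.Agent.U587.DV

/-- A Lie algebra over `F`, of arbitrary dimension. -/
structure LieAlg (F : Type u) [Field F] where
  /-- the underlying set -/
  carrier : Type u
  [ring : LieRing carrier]
  [alg : LieAlgebra F carrier]

attribute [instance] LieAlg.ring LieAlg.alg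

variable (F : Type u) [Field F]

/-- `f` is an identity of `A`: it vanishes under every substitution of elements of `A` for the
variables. The free Lie algebra has the countable set `ℕ` of variables. -/
def IsIdentity (f : FreeLieAlgebra F ℕ) (A : LieAlg F) : Prop :=
  ∀ φ : ℕ → A.carrier, FreeLieAlgebra.lift F φ f = 0

/-- The class of all Lie algebras satisfying every identity in `S`. -/
def Models (S : Set (FreeLieAlgebra F ℕ)) : Set (LieAlg F) :=
  {A | ∀ f ∈ S, IsIdentity F f A}

/-- A variety is the class of all Lie algebras satisfying every identity in some set. -/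
def IsVariety (V : Set (LieAlg F)) : Prop :=
  ∃ S : Set (FreeLieAlgebra F ℕ), V = Models F S

/-- The join of `B` and `C`: the intersection of all varieties which contain `B` and `C`. -/
def join (B C : Set (LieAlg F)) : Set (LieAlg F) :=
  {A | ∀ V : Set (LieAlg F), IsVariety F V → B ⊆ V → C ⊆ V → A ∈ V}

/-- The lattice of subvarieties of `V` (meet: intersection) is distributive. -/
def IsDistributive (V : Set (LieAlg F)) : Prop :=
  ∀ A B C : Set (LieAlg F), IsVariety F A → IsVariety F B → IsVariety F C →
    A ⊆ V → B ⊆ V → C ⊆ V → A ∩ join F B C = join F (A ∩ B) (A ∩ C)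

/-- Lie monomials of degree `n`: iterated brackets of `n` variables. -/
inductive IsMonomial : ℕ → FreeLieAlgebra F ℕ → Prop
  | var (i : ℕ) : IsMonomial 1 (FreeLieAlgebra.of F i)
  | bracket {m n : ℕ} {a b : FreeLieAlgebra F ℕ} (ha : IsMonomial m a) (hb : IsMonomial n b) :
      IsMonomial (m + n) ⁅a, b⁆

/-- The elements of degree at most `d` (and `0`): the linear combinations of monomials of degree
at most `d`. -/
noncomputable def degreeLE (d : ℕ) : Submodule F (FreeLieAlgebra F ℕ) :=
  Submodule.span F {f | ∃ n ≤ d, IsMonomial F n f}

/-- `V` has a basis of identities all of whose elements have degree at most `d`. -/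
def HasBasisOfDegree (d : ℕ) (V : Set (LieAlg F)) : Prop :=
  ∃ S : Set (FreeLieAlgebra F ℕ), (∀ f ∈ S, f ∈ degreeLE F d) ∧ V = Models F S

end Pool.Agent.U587.DV
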