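import Pool.Agent.U587.DV.Poly

set_option autoImplicit false
set_option linter.unusedSectionVars false

/-! Metabelian Lie algebras with an Engel identity of length `n` are nilpotent of class `n - 1`
(characteristic zero). -/

universe u v

namespace Pool.Agent.U587.DV

section ops
variable {F : Type u} [Field F] {D : Type v} [AddCommGroup D] [Module F D]

/-- `(S + t T) ^ N (v + t w)` up to second order -/
theorem jet_pow (S T : Module.End F D) (hc : Commute S T) (v w : D) (N : ℕ) :
    ∃ R : F → D, R ∈ PF F D ∧ ∀ t : F, ((S + t • T) ^ N) (v + t • w) =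
      (S ^ N) v + t • ((N : F) • (S ^ (N - 1)) (T v) + (S ^ N) w) + t ^ 2 • R t := by
  induction N with
  | zero =>
    exact ⟨fun _ => 0, pf_zero, fun t => by simp⟩
  | succ N ih =>
    obtain ⟨R, hR, h⟩ := ih
    refine ⟨fun t => T ((N : F) • (S ^ (N - 1)) (T v) + (S ^ N) w) + (S (R t) + t • T (R t)),
      pf_add (pf_const _) (pf_add (pf_map S hR) (pf_id (pf_map T hR))), fun t => ?_⟩
    rw [pow_succ', Module.End.mul_apply, h t]
    have e1 : T ((S ^ N) v) = (S ^ N) (T v) := by
      have := (hc.symm.pow_right N).eq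
      have h2 := congrArg (fun (f : Module.End F D) => f v) this
      simpa using h2
    have e2 : (N : F) • S ((S ^ (N - 1)) (T v)) = (N : F) • (S ^ N) (T v) := by
      rcases N with _ | N
      · simp
      · rw [Nat.add_sub_cancel, pow_succ', Module.End.mul_apply]
    simp only [LinearMap.add_apply, LinearMap.smul_apply, map_add, map_smul, Nat.add_sub_cancel,
      smul_add]
    rw [e1, e2]
    rw [show (S ^ (N + 1)) v = S ((S ^ N) v) by rw [pow_succ', Module.End.mul_apply],
      show (S ^ (N + 1)) w = S ((S ^ N) w) by rw [pow_succ', Module.End.mul_apply]]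
    push_cast
    module

theorem first_pow [Infinite F] (S T : Module.End F D) (hc : Commute S T) (v w : D) (N : ℕ)
    (h : ∀ t : F, ((S + t • T) ^ N) (v + t • w) = 0) :
    (N : F) • (S ^ (N - 1)) (T v) + (S ^ N) w = 0 := by
  obtain ⟨R, hR, h1⟩ := jet_pow S T hc v w N
  exact first_coeff hR fun t => by rw [← h1 t, h t]

/-- commuting polarization -/
theorem polar [CharZero F] {A : Type*} [AddCommGroup A] [Module F A] (T : A →ₗ[F] Module.End F D)
    (hc : ∀ x y, Commute (T x) (T y)) (N : ℕ) (hN : ∀ x, (T x) ^ N = 0) :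
    ∀ (l : List A), l.length ≤ N → ∀ x, (T x) ^ (N - l.length) * (l.map T).prod = 0 := by
  intro l
  induction l with
  | nil => intro _ x; simpa using hN x
  | cons y l ih =>
    intro hl x
    simp only [List.length_cons] at hl
    have ih' := ih (by omega)
    have key : ∀ v : D, ((T x) ^ (N - l.length - 1)) (T y ((l.map T).prod v)) = 0 := by
      intro v
      have h := first_pow (T x) (T y) (hc x y) ((l.map T).prod v) 0 (N - l.length) (by
        intro t
        have h1 := ih' (x + t • y)
        have h2 := congrArg (fun f : Module.End F D => f v) h1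
        simpa using h2)
      rw [map_zero, add_zero] at h
      have hne : ((N - l.length : ℕ) : F) ≠ 0 := by
        rw [Nat.cast_ne_zero]; omega
      exact (smul_eq_zero.1 h).resolve_left hne
    rw [List.map_cons, List.prod_cons, List.length_cons]
    ext v
    simp only [Module.End.mul_apply, LinearMap.zero_apply]
    rw [show N - (l.length + 1) = N - l.length - 1 by omega]
    exact key v

end ops

section lie
variable {F : Type u} [Field F] [CharZero F] {L : Type v} [LieRing L] [LieAlgebra F L]

/-- the span of the brackets -/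
def Dr (F : Type u) [Field F] (L : Type v) [LieRing L] [LieAlgebra F L] : Submodule F L :=
  Submodule.span F {u | ∃ a b : L, u = ⁅a, b⁆}

omit [CharZero F] in
theorem mem_dr (a b : L) : ⁅a, b⁆ ∈ Dr F L := Submodule.subset_span ⟨a, b, rfl⟩

/-- the adjoint action on the derived algebra -/
def Tad : L →ₗ[F] Module.End F (Dr F L) where
  toFun x :=
    { toFun := fun u => ⟨⁅x, (u : L)⁆, mem_dr x u⟩
      map_add' := fun a b => by ext; simp
      map_smul' := fun c a => by ext; simp }
  map_add' x y := by ext u; simp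
  map_smul' c x := by ext u; simp

@[simp] theorem tad_apply (x : L) (u : Dr F L) : ((Tad (F := F) x u : Dr F L) : L) = ⁅x, (u : L)⁆ :=
  rfl

theorem tad_comm (hM : ∀ a b c d : L, ⁅⁅a, b⁆, ⁅c, d⁆⁆ = 0) (x y : L) :
    Commute (Tad (F := F) x) (Tad y) := by
  have hz : ∀ u ∈ Dr F L, ⁅⁅x, y⁆, u⁆ = 0 := by
    intro u hu
    induction hu using Submodule.span_induction with
    | mem u hu => obtain ⟨a, b, rfl⟩ := hu; exact hM x y a b
    | zero => simp
    | add a b _ _ ha hb => rw [lie_add, ha, hb, add_zero]
    | smul c a _ ha => rw [lie_smul, ha, smul_zero]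
  ext u
  simp only [Module.End.mul_apply, tad_apply]
  have := hz u u.2
  rw [lie_lie] at this
  exact sub_eq_zero.1 this

/-- `ad x ^ k z` -/
theorem tad_pow (x z : L) (k : ℕ) :
    (((Tad (F := F) x) ^ k) ⟨⁅x, z⁆, mem_dr x z⟩ : L) = ((LieAlgebra.ad F L x) ^ (k + 1)) z := by
  induction k with
  | zero => simp
  | succ k ih =>
    rw [pow_succ', Module.End.mul_apply, tad_apply, ih, pow_succ' _ (k + 1)]
    simp

/-- right nested monomial `[x_k, [x_{k-1}, ..., [x_1, x_0]]]` -/
def nest (x : ℕ → L) : ℕ → L
  | 0 => x 0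
  | k + 1 => ⁅x (k + 1), nest x k⁆

theorem nest_tad (x : ℕ → L) (k : ℕ) :
    nest x (k + 1) = ((((List.range k).map fun i => x (i + 2)).reverse.map (Tad (F := F))).prod
      ⟨⁅x 1, x 0⁆, mem_dr _ _⟩ : Dr F L) := by
  induction k with
  | zero => simp [nest]
  | succ k ih =>
    rw [nest, ih, List.range_succ, List.map_append, List.reverse_append]
    simp

theorem engel_nil (hM : ∀ a b c d : L, ⁅⁅a, b⁆, ⁅c, d⁆⁆ = 0) (n : ℕ)
    (hE : ∀ x z : L, ((LieAlgebra.ad F L x) ^ n) z = 0) (x : ℕ → L) : nest x n = 0 := by
  rcases n with _ | N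
  · simpa [nest] using hE 0 (x 0)
  · -- `N + 1` adjoint operators
    have hE' : ∀ x z : L, ((Tad (F := F) x) ^ N) ⟨⁅x, z⁆, mem_dr x z⟩ = 0 := by
      intro x z
      apply Subtype.ext
      rw [tad_pow, hE]
      rfl
    have hc := tad_comm (F := F) hM
    -- first linearization
    have E1 : ∀ x y z : L, (N : F) • ((Tad (F := F) x) ^ (N - 1)) (Tad y ⟨⁅x, z⁆, mem_dr x z⟩) +
        ((Tad (F := F) x) ^ N) ⟨⁅y, z⁆, mem_dr y z⟩ = 0 := by
      intro x y z
      apply first_pow _ _ (hc x y)
      intro t
      have h := hE' (x + t • y) z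
      rw [map_add, map_smul] at h
      rw [← h]
      congr 1
      apply Subtype.ext
      simp [add_lie, smul_lie]
    have E2 : ∀ x y z : L, ((Tad (F := F) x) ^ N) ⟨⁅y, z⁆, mem_dr y z⟩ = 0 := by
      intro x y z
      have a1 := E1 x y z
      have a2 := E1 x z y
      -- Jacobi
      have j : (Tad (F := F) y) ⟨⁅x, z⁆, mem_dr x z⟩ =
          Tad x ⟨⁅y, z⁆, mem_dr y z⟩ + Tad z ⟨⁅x, y⁆, mem_dr x y⟩ := by
        apply Subtype.ext
        simp only [tad_apply, Submodule.coe_add]
        rw [leibniz_lie y x z, ← lie_skew x y, lie_neg, lie_skew]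
        abel
      have j2 : (N : F) • ((Tad (F := F) x) ^ (N - 1)) (Tad x ⟨⁅y, z⁆, mem_dr y z⟩) =
          (N : F) • ((Tad (F := F) x) ^ N) ⟨⁅y, z⁆, mem_dr y z⟩ := by
        rcases N with _ | N
        · simp
        · rw [Nat.add_sub_cancel, pow_succ, Module.End.mul_apply]
      have s : ((Tad (F := F) x) ^ N) ⟨⁅z, y⁆, mem_dr z y⟩ =
          -((Tad (F := F) x) ^ N) ⟨⁅y, z⁆, mem_dr y z⟩ := by
        rw [← map_neg]
        congr 1
        apply Subtype.ext
        simp
      rw [j, map_add, smul_add, j2] at a1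
      rw [s] at a2
      have a3 : ((N : F) + 2) • ((Tad (F := F) x) ^ N) ⟨⁅y, z⁆, mem_dr y z⟩ = 0 := by
        have := congrArg₂ (· - ·) a1 a2
        simp only [sub_zero] at this
        rw [← this]
        module
      have hne : (N : F) + 2 ≠ 0 := by
        have : ((N + 2 : ℕ) : F) ≠ 0 := by rw [Nat.cast_ne_zero]; omega
        simpa using this
      exact (smul_eq_zero.1 a3).resolve_left hne
    have E3 : ∀ x : L, (Tad (F := F) x) ^ N = 0 := by
      intro x
      ext u
      obtain ⟨u, hu⟩ := u
      suffices h : ∀ u (hu : u ∈ Dr F L), ((Tad (F := F) x) ^ N) ⟨u, hu⟩ = 0 by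
        rw [h u hu]; rfl
      intro u hu
      induction hu using Submodule.span_induction with
      | mem u hu => obtain ⟨a, b, rfl⟩ := hu; exact E2 x a b
      | zero => exact map_zero _
      | add a b ha hb h1 h2 =>
        have := congrArg₂ (· + ·) h1 h2
        simp only [← map_add, add_zero] at this
        exact this
      | smul c a ha h1 =>
        have := congrArg (c • ·) h1
        simp only [← map_smul, smul_zero] at this
        exact this
    have P := polar (Tad (F := F) (L := L)) hc N E3
      (((List.range N).map fun i => x (i + 2)).reverse) (by simp) 0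
    rw [nest_tad (F := F)]
    simp only [List.length_reverse, List.length_map, List.length_range, Nat.sub_self, pow_zero,
      one_mul] at P
    rw [P]
    rfl

end lie

end Pool.Agent.U587.DV
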