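import Pool.Agent.U587.DV.Aff

set_option autoImplicit false
set_option linter.unusedSectionVars false

/-! The subvarieties of the variety of the algebras of class at most `d` which satisfy all
identities of the two dimensional nonabelian Lie algebra. -/

universe u v

namespace Pool.Agent.U587.DV

open Polynomial

section
variable {F : Type u} [Field F] {L : Type v} [LieRing L] [LieAlgebra F L]

theorem jet_hom (x z : L) (φ : ℕ → Aff F (1 : F)) {n : ℕ} {g : FreeLieAlgebra F ℕ}
    (hg : g ∈ Hom F n) :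
    ∃ R : F → L, R ∈ PF F L ∧ ∀ t : F,
      FreeLieAlgebra.lift F (fun i => (φ i).1 • x + t • ((φ i).2 • z)) g =
        (FreeLieAlgebra.lift F φ g).1 • x +
          t • ((FreeLieAlgebra.lift F φ g).2 • ((LieAlgebra.ad F L x) ^ (n - 1)) z) +
          t ^ 2 • R t := by
  induction hg using Submodule.span_induction with
  | mem g hg =>
    have hg' : IsMonomial F n g := hg
    clear hg
    induction hg' with
    | var i =>
      refine ⟨fun _ => 0, pf_zero, fun t => ?_⟩
      rw [FreeLieAlgebra.lift_of_apply, FreeLieAlgebra.lift_of_apply]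
      simp
    | @bracket m k a b ha hb h1 h2 =>
      obtain ⟨R1, hR1, e1⟩ := h1
      obtain ⟨R2, hR2, e2⟩ := h2
      have hm := mono_pos ha
      have hk := mono_pos hb
      have z1 := (eval_const (C := F) (1 : F) (Submodule.subset_span ha : a ∈ Hom F m) φ).1
      have z2 := (eval_const (C := F) (1 : F) (Submodule.subset_span hb : b ∈ Hom F k) φ).1
      set A1 := (FreeLieAlgebra.lift F φ a).1 with hA1
      set B1 := (FreeLieAlgebra.lift F φ a).2 with hB1
      set A2 := (FreeLieAlgebra.lift F φ b).1 with hA2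
      set B2 := (FreeLieAlgebra.lift F φ b).2 with hB2
      set U : ℕ → L := fun j => ((LieAlgebra.ad F L x) ^ j) z with hU
      have hUs : ∀ j, ⁅x, U j⁆ = U (j + 1) := by
        intro j
        rw [hU]
        simp only
        rw [pow_succ', Module.End.mul_apply, LieAlgebra.ad_apply]
      refine ⟨fun t => ⁅A1 • x, R2 t⁆ + ⁅R1 t, A2 • x⁆ + ⁅B1 • U (m - 1), B2 • U (k - 1)⁆ +
        t • (⁅B1 • U (m - 1), R2 t⁆ + ⁅R1 t, B2 • U (k - 1)⁆) + t ^ 2 • ⁅R1 t, R2 t⁆, ?_, ?_⟩
      · exact pf_add (pf_add (pf_add (pf_add (pf_lie (pf_const _) hR2) (pf_lie hR1 (pf_const _)))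
          (pf_const _)) (pf_id (pf_add (pf_lie (pf_const _) hR2) (pf_lie hR1 (pf_const _)))))
          (pf_pow 2 (pf_lie hR1 hR2))
      · intro t
        rw [LieHom.map_lie, LieHom.map_lie, e1 t, e2 t]
        have hv : (⁅FreeLieAlgebra.lift F φ a, FreeLieAlgebra.lift F φ b⁆ : Aff F (1 : F)).1 = 0 :=
          rfl
        have hw : (⁅FreeLieAlgebra.lift F φ a, FreeLieAlgebra.lift F φ b⁆ : Aff F (1 : F)).2 =
            A1 * B2 - A2 * B1 := by
          rw [aff_lie_snd, one_mul]
        rw [hv, hw]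
        change _ = (0 : F) • x + t • ((A1 * B2 - A2 * B1) • U (m + k - 1)) + _
        have c1 : A1 • U (k - 1 + 1) = A1 • U (m + k - 1) := by
          by_cases h : m = 1
          · subst h; rw [show k - 1 + 1 = 1 + k - 1 by omega]
          · rw [z1 (by omega), zero_smul, zero_smul]
        have c2 : A2 • U (m - 1 + 1) = A2 • U (m + k - 1) := by
          by_cases h : k = 1
          · subst h; rw [show m - 1 + 1 = m + 1 - 1 by omega]
          · rw [z2 (by omega), zero_smul, zero_smul]
        have d1 : ⁅A1 • x, B2 • U (k - 1)⁆ = (A1 * B2) • U (m + k - 1) := by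
          rw [smul_lie, lie_smul, hUs, smul_comm, c1, smul_smul, mul_comm]
        have d2 : ⁅B1 • U (m - 1), A2 • x⁆ = -((A2 * B1) • U (m + k - 1)) := by
          rw [← lie_skew, smul_lie, lie_smul, hUs, smul_comm, c2, smul_smul, mul_comm]
        have d3 : ⁅A1 • x, A2 • x⁆ = 0 := by
          rw [smul_lie, lie_smul, lie_self, smul_zero, smul_zero]
        simp only [lie_add, add_lie, lie_smul t, smul_lie t, lie_smul (t ^ 2), smul_lie (t ^ 2)]
        rw [d1, d2, d3]
        module
  | zero => exact ⟨fun _ => 0, pf_zero, fun t => by simp⟩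
  | add g h _ _ hg hh =>
    obtain ⟨R1, hR1, e1⟩ := hg
    obtain ⟨R2, hR2, e2⟩ := hh
    refine ⟨fun t => R1 t + R2 t, pf_add hR1 hR2, fun t => ?_⟩
    rw [map_add, e1 t, e2 t, map_add, aff_add_fst, aff_add_snd]
    module
  | smul c g _ hg =>
    obtain ⟨R1, hR1, e1⟩ := hg
    refine ⟨fun t => c • R1 t, pf_smul c hR1, fun t => ?_⟩
    rw [map_smul, e1 t, map_smul, aff_smul_fst, aff_smul_snd]
    simp only [smul_eq_mul]
    module

/-- a homogeneous identity of `L` which is not an identity of the two dimensional algebra gives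
an Engel identity -/
theorem engel_of [Infinite F] {n : ℕ} {g : FreeLieAlgebra F ℕ} (hg : g ∈ Hom F n)
    (hne : g ∉ Id1 F) (hL : ∀ φ : ℕ → L, FreeLieAlgebra.lift F φ g = 0) (x z : L) :
    ((LieAlgebra.ad F L x) ^ (n - 1)) z = 0 := by
  obtain ⟨φ, hφ⟩ : ∃ φ : ℕ → Aff F (1 : F), FreeLieAlgebra.lift F φ g ≠ 0 := by
    by_contra hcon
    push Not at hcon
    exact hne hcon
  by_cases hb : (FreeLieAlgebra.lift F φ g).2 = 0
  · have ha : (FreeLieAlgebra.lift F φ g).1 ≠ 0 := fun ha => hφ (aff_ext ha hb)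
    have hall : ∀ y : L, y = 0 := by
      intro y
      obtain ⟨R, -, e⟩ := jet_hom y z φ hg
      have := e 0
      rw [hL] at this
      simp only [zero_smul, add_zero, ne_eq, OfNat.ofNat_ne_zero, not_false_eq_true, zero_pow]
        at this
      exact (smul_eq_zero.1 this.symm).resolve_left ha
    exact hall _
  · obtain ⟨R, hR, e⟩ := jet_hom x z φ hg
    have := first_coeff hR fun t => by rw [← e t, hL]
    exact (smul_eq_zero.1 this).resolve_left hb

end

section
variable (F : Type u) [Field F] [CharZero F]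

/-- the algebras of class at most `d` satisfying the identities of the two dimensional algebra -/
def Vd (d : ℕ) : Set (LieAlg F) := Models F (Id1 F ∪ {nest (FreeLieAlgebra.of F) d})

variable {F}

theorem mem_Vd {d : ℕ} {A : LieAlg F} : A ∈ Vd F d ↔
    (∀ f ∈ Id1 F, IsIdentity F f A) ∧ ∀ x : ℕ → A.carrier, nest x d = 0 := by
  constructor
  · intro h
    refine ⟨fun f hf => h f (Or.inl hf), fun x => ?_⟩
    have := h _ (Or.inr rfl) x
    rwa [lift_nest] at this
  · rintro ⟨h1, h2⟩ f (hf | hf)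
    · exact h1 f hf
    · intro x
      rw [Set.mem_singleton_iff] at hf
      rw [hf, lift_nest]
      exact h2 x

theorem metab_of {A : LieAlg F} (h : ∀ f ∈ Id1 F, IsIdentity F f A) (a b c d : A.carrier) :
    ⁅⁅a, b⁆, ⁅c, d⁆⁆ = 0 := by
  have h1 : ⁅⁅FreeLieAlgebra.of F 0, FreeLieAlgebra.of F 1⁆,
      ⁅FreeLieAlgebra.of F 2, FreeLieAlgebra.of F 3⁆⁆ ∈ Id1 F := by
    intro φ
    rw [LieHom.map_lie, LieHom.map_lie, LieHom.map_lie]
    exact aff_metab _ _ _ _ _
  have h2 := h _ h1 (fun i => if i = 0 then a else if i = 1 then b else if i = 2 then c else d)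
  simpa only [LieHom.map_lie, FreeLieAlgebra.lift_of_apply, if_true, if_false, one_ne_zero,
    OfNat.ofNat_ne_zero, OfNat.ofNat_ne_one, OfNat.ofNat_eq_ofNat, Nat.reduceEqDiff] using h2

/-- Key lemma. -/
theorem key {k : ℕ} {f : FreeLieAlgebra F ℕ} {B : LieAlg F} (hB : B ∈ Vd F k)
    (hf : ¬ IsIdentity F f B) :
    ∃ j < k, ∀ A : LieAlg F, (∀ f ∈ Id1 F, IsIdentity F f A) → IsIdentity F f A → A ∈ Vd F j := by
  obtain ⟨d, hd⟩ := exists_degree f
  obtain ⟨g, hg, e⟩ := decomp_le hd
  rw [mem_Vd] at hB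
  unfold IsIdentity at hf
  push Not at hf
  obtain ⟨φ, hφ⟩ := hf
  rw [e, map_sum] at hφ
  obtain ⟨n, hn, hne⟩ := Finset.exists_ne_zero_of_sum_ne_zero hφ
  have hnk : n - 1 < k := by
    by_contra hcon
    push Not at hcon
    exact hne (G_eq_bot hcon hB.2 (eval_G (hg n) φ))
  have hnot : g n ∉ Id1 F := fun h => hne (hB.1 _ h φ)
  refine ⟨n - 1, hnk, fun A hA hfA => mem_Vd.2 ⟨hA, ?_⟩⟩
  have hid : ∀ φ : ℕ → A.carrier, FreeLieAlgebra.lift F φ (g n) = 0 := by
    refine comp_identity hg (N := d + 1) ?_ n (Finset.mem_range.1 hn)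
    rw [← e]
    exact hfA
  exact engel_nil (F := F) (metab_of hA) (n - 1) (engel_of (hg n) hnot hid)

theorem Vd_mono {j k : ℕ} (h : j ≤ k) : Vd F j ⊆ Vd F k := by
  intro A hA
  rw [mem_Vd] at hA ⊢
  exact ⟨hA.1, nest_mono h hA.2⟩

/-- the subvarieties of `Vd d` are the `Vd k`, `k ≤ d` -/
theorem sub_eq {d : ℕ} {W : Set (LieAlg F)} (hW : IsVariety F W) (hs : W ⊆ Vd F d) :
    ∃ k ≤ d, W = Vd F k := by
  classical
  obtain ⟨S, rfl⟩ := hW
  have hex : ∃ k, Models F S ⊆ Vd F k := ⟨d, hs⟩
  refine ⟨Nat.find hex, Nat.find_min' hex hs, Set.Subset.antisymm (Nat.find_spec hex) ?_⟩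
  intro B hB f hf
  by_contra hcon
  obtain ⟨j, hj, h⟩ := key hB hcon
  exact Nat.find_min hex hj fun A hA => h A (mem_Vd.1 (hs hA)).1 (hA f hf)

theorem Vd_variety (d : ℕ) : IsVariety F (Vd F d) := ⟨_, rfl⟩

theorem chain {d : ℕ} {B C : Set (LieAlg F)} (hB : IsVariety F B) (hC : IsVariety F C)
    (hBd : B ⊆ Vd F d) (hCd : C ⊆ Vd F d) : B ⊆ C ∨ C ⊆ B := by
  obtain ⟨k, -, rfl⟩ := sub_eq hB hBd
  obtain ⟨l, -, rfl⟩ := sub_eq hC hCd
  rcases le_total k l with h | h
  · exact Or.inl (Vd_mono h)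
  · exact Or.inr (Vd_mono h)

theorem inter_variety {B C : Set (LieAlg F)} (hB : IsVariety F B) (hC : IsVariety F C) :
    IsVariety F (B ∩ C) := by
  obtain ⟨S, rfl⟩ := hB
  obtain ⟨T, rfl⟩ := hC
  refine ⟨S ∪ T, ?_⟩
  ext A
  constructor
  · rintro ⟨h1, h2⟩ f (hf | hf)
    · exact h1 f hf
    · exact h2 f hf
  · intro h
    exact ⟨fun f hf => h f (Or.inl hf), fun f hf => h f (Or.inr hf)⟩

theorem join_of_le {B C : Set (LieAlg F)} (hC : IsVariety F C) (h : B ⊆ C) : join F B C = C := by
  apply Set.Subset.antisymm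
  · intro A hA
    exact hA C hC h Set.Subset.rfl
  · intro A hA V _ _ h2
    exact h2 hA

theorem join_comm' (B C : Set (LieAlg F)) : join F B C = join F C B := by
  ext A
  exact ⟨fun h V hV h1 h2 => h V hV h2 h1, fun h V hV h1 h2 => h V hV h2 h1⟩

theorem distributive (d : ℕ) : IsDistributive F (Vd F d) := by
  intro A B C hA hB hC _ hBd hCd
  rcases chain hB hC hBd hCd with h | h
  · rw [join_of_le hC h, join_of_le (inter_variety hA hC) (Set.inter_subset_inter_right A h)]
  · rw [join_comm' B C, join_of_le hB h, join_comm' (A ∩ B) (A ∩ C),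
      join_of_le (inter_variety hA hB) (Set.inter_subset_inter_right A h)]

theorem trunc_mem (d : ℕ) : Et F d ∈ Vd F d :=
  mem_Vd.2 ⟨fun _ hf => id_trunc d hf, nest_trunc d⟩

theorem E1_not_mem (d : ℕ) : E1 F ∉ Vd F d := by
  intro h
  have h1 := (mem_Vd.1 h).2
  have key : ∀ k, nest (fun n => if n = 0 then am (1 : F) 0 1 else am (1 : F) 1 0) k =
      am (1 : F) 0 1 := by
    intro k
    induction k with
    | zero => rfl
    | succ k ih =>
      rw [nest, ih]
      apply aff_ext
      · rfl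
      · rw [aff_lie_snd]
        simp
  have h2 : am (1 : F) 0 1 = 0 := (key d).symm.trans
    (h1 (fun n => if n = 0 then am (1 : F) 0 1 else am (1 : F) 1 0))
  have h3 := congrArg Prod.snd h2
  exact one_ne_zero h3

/-- identities of degree at most `d` of `Vd d` are identities of the two dimensional algebra -/
theorem low_degree {d : ℕ} {f : FreeLieAlgebra F ℕ} (hf : f ∈ degreeLE F d)
    (h : IsIdentity F f (Et F d)) : f ∈ Id1 F := by
  obtain ⟨g, hg, e⟩ := decomp_le hf
  intro φ
  let φ : ℕ → Aff F (1 : F) := φ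
  change FreeLieAlgebra.lift F φ f = 0
  -- coefficients
  set A : ℕ → F := fun n => (FreeLieAlgebra.lift F φ (g n)).1 with hA
  set B : ℕ → F := fun n => (FreeLieAlgebra.lift F φ (g n)).2 with hB
  have hP := fun n => eval_const (X : F[X]) (hg n) φ
  set ψ : ℕ → Aff F[X] (X : F[X]) := fun i =>
    am (X : F[X]) (algebraMap F F[X] (φ i).1) (algebraMap F F[X] (φ i).2) with hψ
  have hfst : ∀ s : Finset ℕ, (∑ n ∈ s, FreeLieAlgebra.lift F ψ (g n)).1 =
      ∑ n ∈ s, algebraMap F F[X] (A n) := by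
    intro s
    induction s using Finset.induction_on with
    | empty => rfl
    | insert a s ha ih => rw [Finset.sum_insert ha, Finset.sum_insert ha, aff_add_fst, ih, (hP a).2.1]
  have hsnd : ∀ s : Finset ℕ, (∑ n ∈ s, FreeLieAlgebra.lift F ψ (g n)).2 =
      ∑ n ∈ s, X ^ (n - 1) * algebraMap F F[X] (B n) := by
    intro s
    induction s using Finset.induction_on with
    | empty => rfl
    | insert a s ha ih => rw [Finset.sum_insert ha, Finset.sum_insert ha, aff_add_snd, ih, (hP a).2.2]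
  -- reduce modulo `X ^ d`
  have h1 := h (fun i => affMap (c := (X : F[X])) (c' := Ideal.Quotient.mk _ (X : F[X]))
    (Ideal.Quotient.mkₐ F (Ideal.span {(X : F[X]) ^ d})) rfl (ψ i))
  have h2 : affMap (c := (X : F[X])) (c' := Ideal.Quotient.mk _ (X : F[X]))
    (Ideal.Quotient.mkₐ F (Ideal.span {(X : F[X]) ^ d})) rfl (FreeLieAlgebra.lift F ψ f) = 0 := by
    rw [lift_comp]
    exact h1
  rw [e, map_sum] at h2
  have p1 : (X : F[X]) ^ d ∣ ∑ n ∈ Finset.range (d + 1), algebraMap F F[X] (A n) := by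
    have := congrArg Prod.fst h2
    change Ideal.Quotient.mk _ (∑ n ∈ Finset.range (d + 1), FreeLieAlgebra.lift F ψ (g n)).1 = 0
      at this
    rw [hfst, Ideal.Quotient.eq_zero_iff_mem, Ideal.mem_span_singleton] at this
    exact this
  have p2 : (X : F[X]) ^ d ∣ ∑ n ∈ Finset.range (d + 1), X ^ (n - 1) * algebraMap F F[X] (B n) := by
    have := congrArg Prod.snd h2
    change Ideal.Quotient.mk _ (∑ n ∈ Finset.range (d + 1), FreeLieAlgebra.lift F ψ (g n)).2 = 0
      at this
    rw [hsnd, Ideal.Quotient.eq_zero_iff_mem, Ideal.mem_span_singleton] at this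
    exact this
  have g0 : g 0 = 0 := hom_zero (hg 0)
  rw [e, map_sum]
  rcases Nat.eq_zero_or_pos d with hd | hd
  · subst hd
    simp [g0]
  · have B0 : B 0 = 0 := by rw [hB]; simp only; rw [g0, map_zero]; rfl
    have Bn : ∀ n ∈ Finset.range (d + 1), B n = 0 := by
      intro n hn
      rw [Finset.mem_range] at hn
      rcases Nat.eq_zero_or_pos n with h0 | h0
      · rw [h0, B0]
      · rw [Polynomial.X_pow_dvd_iff] at p2
        have := p2 (n - 1) (by omega)
        rw [Polynomial.finsetSum_coeff, Finset.sum_eq_single n] at this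
        · simpa [Polynomial.algebraMap_eq] using this
        · intro b hb hbn
          rcases Nat.eq_zero_or_pos b with hb0 | hb0
          · rw [hb0, B0]; simp
          · rw [Polynomial.algebraMap_eq, mul_comm, Polynomial.coeff_C_mul_X_pow, if_neg (by omega)]
        · intro hcon
          exact absurd (Finset.mem_range.2 hn) hcon
    have As : ∑ n ∈ Finset.range (d + 1), A n = 0 := by
      rw [Polynomial.X_pow_dvd_iff] at p1
      have := p1 0 hd
      rw [← map_sum] at this
      simpa [Polynomial.algebraMap_eq] using this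
    have fin1 : ∀ s : Finset ℕ, (∑ n ∈ s, FreeLieAlgebra.lift F φ (g n)).1 = ∑ n ∈ s, A n := by
      intro s
      induction s using Finset.induction_on with
      | empty => rfl
      | insert a s ha ih => rw [Finset.sum_insert ha, Finset.sum_insert ha, aff_add_fst, ih]
    have fin2 : ∀ s : Finset ℕ, (∑ n ∈ s, FreeLieAlgebra.lift F φ (g n)).2 = ∑ n ∈ s, B n := by
      intro s
      induction s using Finset.induction_on with
      | empty => rfl
      | insert a s ha ih => rw [Finset.sum_insert ha, Finset.sum_insert ha, aff_add_snd, ih]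
    apply aff_ext
    · rw [fin1, As]; rfl
    · rw [fin2, Finset.sum_eq_zero Bn]; rfl

theorem no_basis (d : ℕ) : ¬ HasBasisOfDegree F d (Vd F d) := by
  rintro ⟨S, hS, e⟩
  apply E1_not_mem (F := F) d
  rw [e]
  intro f hf
  have h1 : Et F d ∈ Models F S := by rw [← e]; exact trunc_mem d
  exact low_degree (hS f hf) (h1 f hf)

end

end Pool.Agent.U587.DV
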