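import Pool.Agent.U587.DV.Defs
import Pool.Agent.U587.DV.Eng

set_option autoImplicit false
set_option linter.unusedSectionVars false

/-! Lie monomials, homogeneous components, evaluation, right nested brackets. -/

universe u v

namespace Pool.Agent.U587.DV

open Polynomial

variable (F : Type u) [Field F]

/-- homogeneous elements of degree `n` -/
noncomputable def Hom (n : ℕ) : Submodule F (FreeLieAlgebra F ℕ) :=
  Submodule.span F {f | IsMonomial F n f}

variable {F}

theorem mono_pos {n : ℕ} {f : FreeLieAlgebra F ℕ} (h : IsMonomial F n f) : 1 ≤ n := by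
  induction h with
  | var i => exact le_rfl
  | bracket _ _ h1 h2 => omega

theorem hom_zero {g : FreeLieAlgebra F ℕ} (h : g ∈ Hom F 0) : g = 0 := by
  induction h using Submodule.span_induction with
  | mem x hx => exact absurd (mono_pos hx) (by omega)
  | zero => rfl
  | add x y _ _ hx hy => rw [hx, hy, add_zero]
  | smul c x _ hx => rw [hx, smul_zero]

theorem lift_comp {L L' : Type*} [LieRing L] [LieAlgebra F L] [LieRing L'] [LieAlgebra F L']
    (θ : L →ₗ⁅F⁆ L') (φ : ℕ → L) (f : FreeLieAlgebra F ℕ) :
    θ (FreeLieAlgebra.lift F φ f) = FreeLieAlgebra.lift F (fun i => θ (φ i)) f := by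
  have : θ.comp (FreeLieAlgebra.lift F φ) = FreeLieAlgebra.lift F (fun i => θ (φ i)) := by
    apply FreeLieAlgebra.hom_ext
    intro x
    simp [LieHom.comp_apply]
  rw [← this, LieHom.comp_apply]

/-- every element is a combination of monomials -/
theorem span_mono : Submodule.span F {f : FreeLieAlgebra F ℕ | ∃ n, IsMonomial F n f} = ⊤ := by
  set M := Submodule.span F {f : FreeLieAlgebra F ℕ | ∃ n, IsMonomial F n f} with hM
  have hbr : ∀ a ∈ M, ∀ b ∈ M, ⁅a, b⁆ ∈ M := by
    intro a ha b hb
    induction ha using Submodule.span_induction with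
    | mem x hx =>
      obtain ⟨m, hm⟩ := hx
      induction hb using Submodule.span_induction with
      | mem y hy =>
        obtain ⟨n, hn⟩ := hy
        exact Submodule.subset_span ⟨m + n, hm.bracket hn⟩
      | zero => rw [lie_zero]; exact M.zero_mem
      | add y z _ _ hy hz => rw [lie_add]; exact M.add_mem hy hz
      | smul c y _ hy => rw [lie_smul]; exact M.smul_mem c hy
    | zero => rw [zero_lie]; exact M.zero_mem
    | add y z _ _ hy hz => rw [add_lie]; exact M.add_mem hy hz
    | smul c y _ hy => rw [smul_lie]; exact M.smul_mem c hy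
  let K : LieSubalgebra F (FreeLieAlgebra F ℕ) :=
    { M with lie_mem' := fun {a b} ha hb => hbr a ha b hb }
  have hof : ∀ i, FreeLieAlgebra.of F i ∈ K := fun i =>
    Submodule.subset_span ⟨1, IsMonomial.var i⟩
  rw [eq_top_iff]
  rintro f -
  have h1 : K.incl (FreeLieAlgebra.lift F (fun i => (⟨_, hof i⟩ : K)) f) = f := by
    rw [lift_comp]
    have : FreeLieAlgebra.lift F (fun i => K.incl (⟨_, hof i⟩ : K)) = LieHom.id := by
      apply FreeLieAlgebra.hom_ext
      intro x
      simp
    rw [this]
    rfl
  rw [← h1]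
  exact (FreeLieAlgebra.lift F (fun i => (⟨_, hof i⟩ : K)) f).2

/-- decomposition into homogeneous components -/
theorem decomp_le {d : ℕ} {f : FreeLieAlgebra F ℕ} (hf : f ∈ degreeLE F d) :
    ∃ g : ℕ → FreeLieAlgebra F ℕ, (∀ n, g n ∈ Hom F n) ∧ f = ∑ n ∈ Finset.range (d + 1), g n := by
  classical
  induction hf using Submodule.span_induction with
  | mem x hx =>
    obtain ⟨n, hn, h⟩ := hx
    refine ⟨fun k => if k = n then x else 0, fun k => ?_, ?_⟩
    · dsimp only
      split_ifs with hk
      · subst hk
        exact Submodule.subset_span h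
      · exact Submodule.zero_mem _
    · rw [Finset.sum_ite_eq', if_pos (Finset.mem_range.2 (by omega))]
  | zero => exact ⟨fun _ => 0, fun _ => Submodule.zero_mem _, by simp⟩
  | add x y _ _ hx hy =>
    obtain ⟨g, hg, e⟩ := hx
    obtain ⟨g', hg', e'⟩ := hy
    exact ⟨fun n => g n + g' n, fun n => Submodule.add_mem _ (hg n) (hg' n), by
      rw [e, e', Finset.sum_add_distrib]⟩
  | smul c x _ hx =>
    obtain ⟨g, hg, e⟩ := hx
    exact ⟨fun n => c • g n, fun n => Submodule.smul_mem _ _ (hg n), by
      rw [e, Finset.smul_sum]⟩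

theorem degree_mono {d e : ℕ} (h : d ≤ e) : degreeLE F d ≤ degreeLE F e := by
  apply Submodule.span_mono
  rintro f ⟨n, hn, hf⟩
  exact ⟨n, hn.trans h, hf⟩

theorem exists_degree (f : FreeLieAlgebra F ℕ) : ∃ d, f ∈ degreeLE F d := by
  have h : f ∈ Submodule.span F {f : FreeLieAlgebra F ℕ | ∃ n, IsMonomial F n f} := by
    rw [span_mono]; trivial
  induction h using Submodule.span_induction with
  | mem x hx =>
    obtain ⟨n, hn⟩ := hx
    exact ⟨n, Submodule.subset_span ⟨n, le_rfl, hn⟩⟩
  | zero => exact ⟨0, Submodule.zero_mem _⟩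
  | add x y _ _ hx hy =>
    obtain ⟨a, ha⟩ := hx
    obtain ⟨b, hb⟩ := hy
    exact ⟨max a b, Submodule.add_mem _ (degree_mono (le_max_left a b) ha)
      (degree_mono (le_max_right a b) hb)⟩
  | smul c x _ hx =>
    obtain ⟨a, ha⟩ := hx
    exact ⟨a, Submodule.smul_mem _ c ha⟩

section eval
variable {L : Type v} [LieRing L] [LieAlgebra F L]

/-- scaling -/
theorem lift_scale {n : ℕ} {g : FreeLieAlgebra F ℕ} (hg : g ∈ Hom F n) (φ : ℕ → L) (t : F) :
    FreeLieAlgebra.lift F (fun i => t • φ i) g = t ^ n • FreeLieAlgebra.lift F φ g := by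
  induction hg using Submodule.span_induction with
  | mem x hx =>
    have hx' : IsMonomial F n x := hx
    clear hx
    induction hx' with
    | var i => simp
    | bracket _ _ h1 h2 =>
      rw [LieHom.map_lie, h1, h2, LieHom.map_lie, smul_lie, lie_smul, smul_smul, pow_add]
  | zero => simp
  | add x y _ _ hx hy => rw [map_add, map_add, hx, hy, smul_add]
  | smul c x _ hx => rw [map_smul, map_smul, hx, smul_comm]

/-- homogeneous components of identities are identities -/
theorem comp_identity [Infinite F] {N : ℕ} {g : ℕ → FreeLieAlgebra F ℕ} (hg : ∀ n, g n ∈ Hom F n)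
    (h : ∀ φ : ℕ → L, FreeLieAlgebra.lift F φ (∑ n ∈ Finset.range N, g n) = 0) :
    ∀ n < N, ∀ φ : ℕ → L, FreeLieAlgebra.lift F φ (g n) = 0 := by
  intro n hn φ
  refine all_coeff (F := F) (v := fun n => FreeLieAlgebra.lift F φ (g n)) (N := N) ?_ n hn
  intro t
  have := h (fun i => t • φ i)
  rw [map_sum] at this
  rw [← this]
  exact Finset.sum_congr rfl fun k _ => (lift_scale (hg k) φ t).symm

/-- the span of the right nested brackets of `k + 1` elements -/
def G (F : Type u) [Field F] (L : Type v) [LieRing L] [LieAlgebra F L] (k : ℕ) : Submodule F L :=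
  Submodule.span F {u | ∃ x : ℕ → L, u = nest x k}

theorem nest_congr {x y : ℕ → L} {k : ℕ} (h : ∀ i ≤ k, x i = y i) : nest x k = nest y k := by
  induction k with
  | zero => exact h 0 le_rfl
  | succ k ih =>
    rw [nest, nest, h (k + 1) le_rfl, ih fun i hi => h i (by omega)]

theorem G_act (a : L) {u : L} {k : ℕ} (hu : u ∈ G F L k) : ⁅a, u⁆ ∈ G F L (k + 1) := by
  induction hu using Submodule.span_induction with
  | mem u hu =>
    obtain ⟨x, rfl⟩ := hu
    refine Submodule.subset_span ⟨Function.update x (k + 1) a, ?_⟩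
    rw [nest, Function.update_self]
    congr 1
    apply nest_congr
    intro i hi
    rw [Function.update_of_ne (by omega)]
  | zero => rw [lie_zero]; exact Submodule.zero_mem _
  | add y z _ _ hy hz => rw [lie_add]; exact Submodule.add_mem _ hy hz
  | smul c y _ hy => rw [lie_smul]; exact Submodule.smul_mem _ c hy

theorem G_lie {i : ℕ} : ∀ {j : ℕ} {u w : L}, u ∈ G F L i → w ∈ G F L j →
    ⁅u, w⁆ ∈ G F L (i + j + 1) := by
  induction i with
  | zero =>
    intro j u w hu hw
    rw [Nat.zero_add]
    exact G_act u hw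
  | succ i ih =>
    intro j u w hu hw
    induction hu using Submodule.span_induction with
    | mem u hu =>
      obtain ⟨x, rfl⟩ := hu
      rw [nest, lie_lie]
      have hx : nest x i ∈ G F L i := Submodule.subset_span ⟨x, rfl⟩
      apply Submodule.sub_mem
      · have := G_act (x (i + 1)) (ih hx hw)
        rw [show i + 1 + j + 1 = i + j + 1 + 1 by omega]
        exact this
      · have := ih hx (G_act (x (i + 1)) hw)
        rw [show i + 1 + j + 1 = i + (j + 1) + 1 by omega]
        exact this
    | zero => rw [zero_lie]; exact Submodule.zero_mem _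
    | add y z _ _ hy hz => rw [add_lie]; exact Submodule.add_mem _ hy hz
    | smul c y _ hy => rw [smul_lie]; exact Submodule.smul_mem _ c hy

theorem eval_G {n : ℕ} {g : FreeLieAlgebra F ℕ} (hg : g ∈ Hom F n) (φ : ℕ → L) :
    FreeLieAlgebra.lift F φ g ∈ G F L (n - 1) := by
  induction hg using Submodule.span_induction with
  | mem x hx =>
    have hx' : IsMonomial F n x := hx
    clear hx
    induction hx' with
    | var i => exact Submodule.subset_span ⟨fun _ => φ i, by simp [nest]⟩
    | @bracket m n a b ha hb h1 h2 =>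
      rw [LieHom.map_lie]
      have := G_lie h1 h2
      have p1 := mono_pos ha
      have p2 := mono_pos hb
      rw [show m - 1 + (n - 1) + 1 = m + n - 1 by omega] at this
      exact this
  | zero => rw [map_zero]; exact Submodule.zero_mem _
  | add y z _ _ hy hz => rw [map_add]; exact Submodule.add_mem _ hy hz
  | smul c y _ hy => rw [map_smul]; exact Submodule.smul_mem _ c hy

theorem nest_mono {k l : ℕ} (h : k ≤ l) (hk : ∀ x : ℕ → L, nest x k = 0) :
    ∀ x : ℕ → L, nest x l = 0 := by
  induction l, h using Nat.le_induction with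
  | base => exact hk
  | succ l _ ih => intro x; rw [nest, ih x, lie_zero]

theorem G_eq_bot {k l : ℕ} (h : k ≤ l) (hk : ∀ x : ℕ → L, nest x k = 0) {u : L}
    (hu : u ∈ G F L l) : u = 0 := by
  induction hu using Submodule.span_induction with
  | mem u hu => obtain ⟨x, rfl⟩ := hu; exact nest_mono h hk x
  | zero => rfl
  | add y z _ _ hy hz => rw [hy, hz, add_zero]
  | smul c y _ hy => rw [hy, smul_zero]

theorem lift_nest (φ : ℕ → L) (k : ℕ) :
    FreeLieAlgebra.lift F φ (nest (FreeLieAlgebra.of F) k) = nest φ k := by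
  induction k with
  | zero => simp [nest]
  | succ k ih => rw [nest, LieHom.map_lie, ih, nest, FreeLieAlgebra.lift_of_apply]

end eval

end Pool.Agent.U587.DV
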