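import Mathlib

set_option autoImplicit false

/-! Polynomial functions of one parameter with values in a vector space, and their first terms. -/

universe u v

namespace Pool.Agent.U587.DV

open Polynomial

variable (F : Type u) [Field F]

/-- Polynomial functions `F → V`. -/
def PF (V : Type v) [AddCommGroup V] [Module F V] : Submodule F (F → V) :=
  Submodule.span F {h | ∃ (k : ℕ) (r : V), h = fun t => t ^ k • r}

section
variable {F} {V : Type v} [AddCommGroup V] [Module F V]

theorem pf_mono (k : ℕ) (r : V) : (fun t : F => t ^ k • r) ∈ PF F V :=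
  Submodule.subset_span ⟨k, r, rfl⟩

theorem pf_const (r : V) : (fun _ : F => r) ∈ PF F V := by
  have := pf_mono (F := F) 0 r
  simpa using this

theorem pf_zero : (fun _ : F => (0 : V)) ∈ PF F V := pf_const 0

theorem pf_add {f g : F → V} (hf : f ∈ PF F V) (hg : g ∈ PF F V) :
    (fun t => f t + g t) ∈ PF F V := (PF F V).add_mem hf hg

theorem pf_smul (c : F) {f : F → V} (hf : f ∈ PF F V) : (fun t => c • f t) ∈ PF F V :=
  (PF F V).smul_mem c hf

theorem pf_pow (k : ℕ) {f : F → V} (hf : f ∈ PF F V) : (fun t => t ^ k • f t) ∈ PF F V := by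
  induction hf using Submodule.span_induction with
  | mem x hx =>
    obtain ⟨j, r, rfl⟩ := hx
    have := pf_mono (F := F) (k + j) r
    refine (congrArg (· ∈ PF F V) ?_).mpr this
    funext t
    simp only [smul_smul, pow_add]
  | zero => simpa using pf_zero (F := F) (V := V)
  | add x y _ _ hx hy =>
    have := pf_add hx hy
    refine (congrArg (· ∈ PF F V) ?_).mpr this
    funext t
    simp [smul_add]
  | smul c x _ hx =>
    have := pf_smul c hx
    refine (congrArg (· ∈ PF F V) ?_).mpr this
    funext t
    simp only [Pi.smul_apply]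
    rw [smul_comm]

theorem pf_id {f : F → V} (hf : f ∈ PF F V) : (fun t => t • f t) ∈ PF F V := by
  have := pf_pow 1 hf
  simpa using this

theorem pf_map {W : Type*} [AddCommGroup W] [Module F W] (T : V →ₗ[F] W) {f : F → V}
    (hf : f ∈ PF F V) : (fun t => T (f t)) ∈ PF F W := by
  induction hf using Submodule.span_induction with
  | mem x hx =>
    obtain ⟨j, r, rfl⟩ := hx
    have := pf_mono (F := F) j (T r)
    refine (congrArg (· ∈ PF F W) ?_).mpr this
    funext t
    simp
  | zero => simpa using pf_zero (F := F) (V := W)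
  | add x y _ _ hx hy =>
    have := pf_add hx hy
    refine (congrArg (· ∈ PF F W) ?_).mpr this
    funext t
    simp
  | smul c x _ hx =>
    have := pf_smul c hx
    refine (congrArg (· ∈ PF F W) ?_).mpr this
    funext t
    simp

theorem pf_scalar {f : F → F} (hf : f ∈ PF F F) : ∃ p : F[X], ∀ t, f t = p.eval t := by
  induction hf using Submodule.span_induction with
  | mem x hx =>
    obtain ⟨j, r, rfl⟩ := hx
    exact ⟨C r * X ^ j, fun t => by
      rw [eval_mul, eval_C, eval_pow, eval_X]
      exact mul_comm _ _⟩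
  | zero => exact ⟨0, fun t => by simp⟩
  | add x y _ _ hx hy =>
    obtain ⟨p, hp⟩ := hx
    obtain ⟨q, hq⟩ := hy
    exact ⟨p + q, fun t => by simp [hp, hq]⟩
  | smul c x _ hx =>
    obtain ⟨p, hp⟩ := hx
    exact ⟨C c * p, fun t => by simp [hp]⟩

/-- the first coefficient of a polynomial function which vanishes identically -/
theorem first_coeff [Infinite F] {u0 u1 : V} {R : F → V} (hR : R ∈ PF F V)
    (h : ∀ t : F, u0 + t • u1 + t ^ 2 • R t = 0) : u1 = 0 := by
  by_contra hne
  obtain ⟨l, hl⟩ : ∃ l : Module.Dual F V, l u1 ≠ 0 := by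
    by_contra hcon
    push Not at hcon
    exact hne ((Module.forall_dual_apply_eq_zero_iff F u1).1 hcon)
  obtain ⟨p, hp⟩ := pf_scalar (pf_map l hR)
  have hz : (C (l u0) + X * C (l u1) + X ^ 2 * p : F[X]) = 0 := by
    apply Polynomial.funext
    intro t
    have := congrArg l (h t)
    simp only [map_add, map_smul, smul_eq_mul, map_zero] at this
    simp only [eval_add, eval_mul, eval_C, eval_X, eval_pow, eval_zero]
    rw [← hp t]
    exact this
  have h1 := congrArg (fun q : F[X] => q.coeff 1) hz
  simp only [coeff_add, coeff_C_succ, coeff_zero] at h1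
  rw [show (X * C (l u1) : F[X]).coeff 1 = l u1 by simp] at h1
  rw [show (X ^ 2 * p : F[X]).coeff 1 = 0 by
    rw [mul_comm, coeff_mul_X_pow']
    simp] at h1
  simp at h1
  exact hl h1

/-- all coefficients vanish -/
theorem all_coeff [Infinite F] {N : ℕ} {v : ℕ → V}
    (h : ∀ t : F, ∑ n ∈ Finset.range N, t ^ n • v n = 0) : ∀ n < N, v n = 0 := by
  intro n hn
  by_contra hne
  obtain ⟨l, hl⟩ : ∃ l : Module.Dual F V, l (v n) ≠ 0 := by
    by_contra hcon
    push Not at hcon
    exact hne ((Module.forall_dual_apply_eq_zero_iff F (v n)).1 hcon)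
  have hz : (∑ k ∈ Finset.range N, C (l (v k)) * X ^ k : F[X]) = 0 := by
    apply Polynomial.funext
    intro t
    have := congrArg l (h t)
    simp only [map_sum, map_smul, smul_eq_mul, map_zero] at this
    rw [eval_finsetSum]
    simp only [eval_mul, eval_C, eval_X, eval_pow, eval_zero]
    rw [← this]
    exact Finset.sum_congr rfl fun k _ => mul_comm _ _
  have h1 := congrArg (fun q : F[X] => q.coeff n) hz
  simp only [finsetSum_coeff, coeff_C_mul, coeff_X_pow, coeff_zero] at h1
  rw [Finset.sum_eq_single n] at h1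
  · simp at h1
    exact hl h1
  · intro b _ hb
    simp [Ne.symm hb]
  · intro hb
    exact absurd (Finset.mem_range.2 hn) hb

end

section
variable {F} {L : Type v} [LieRing L] [LieAlgebra F L]

theorem pf_lie {f g : F → L} (hf : f ∈ PF F L) (hg : g ∈ PF F L) :
    (fun t => ⁅f t, g t⁆) ∈ PF F L := by
  induction hf using Submodule.span_induction with
  | mem x hx =>
    obtain ⟨j, r, rfl⟩ := hx
    have h1 : (fun t => ⁅r, g t⁆) ∈ PF F L := pf_map (LieAlgebra.ad F L r : L →ₗ[F] L) hg
    have := pf_pow j h1
    refine (congrArg (· ∈ PF F L) ?_).mpr this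
    funext t
    simp [smul_lie]
  | zero => simpa using pf_zero (F := F) (V := L)
  | add x y _ _ hx hy =>
    have := pf_add hx hy
    refine (congrArg (· ∈ PF F L) ?_).mpr this
    funext t
    simp
  | smul c x _ hx =>
    have := pf_smul c hx
    refine (congrArg (· ∈ PF F L) ?_).mpr this
    funext t
    simp [smul_lie]

end

end Pool.Agent.U587.DV
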